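import Pool.Agent.Lib_helper17.RS.Bas

/-!
# Quadratic reciprocity and the Hasse norm theorem for quadratic extensions of a number field (QR):
definitions

Everything takes place inside `Fˣ`; there are no completions.
-/

set_option autoImplicit false
set_option linter.unusedSectionVars false

namespace Pool.Agent.QR

open Pool.Agent.RSK
open NumberField IsDedekindDomain

variable {F : Type} [Field F] [NumberField F]

/-! ## Local squares -/

/-- The elements of `Fˣ` which are squares in the completion at the finite place `v`: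
`v(c y² - 1) > v(4)` for some `y`. -/
def Sqf (v : HeightOneSpectrum (𝓞 F)) : Subgroup Fˣ where
  carrier := {c | ∃ y : Fˣ, v.valuation F ((c : F) * (y : F) ^ 2 - 1) < v.valuation F 4}
  one_mem' := ⟨1, by
    have h4 : v.valuation F 4 ≠ 0 := (map_ne_zero _).2 (by norm_num)
    simpa using zero_lt_iff.2 h4⟩
  mul_mem' := by
    rintro c d ⟨y, hy⟩ ⟨z, hz⟩
    refine ⟨y * z, ?_⟩
    have h4 : v.valuation F 4 ≤ 1 := by
      have h : v.valuation F (algebraMap (𝓞 F) F 4) ≤ 1 := v.valuation_le_one 4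
      rwa [map_ofNat] at h
    have e : ((c * d : Fˣ) : F) * ((y * z : Fˣ) : F) ^ 2 - 1 =
        ((c : F) * (y : F) ^ 2 - 1) * ((d : F) * (z : F) ^ 2 - 1) +
          (((c : F) * (y : F) ^ 2 - 1) + ((d : F) * (z : F) ^ 2 - 1)) := by
      push_cast
      ring
    rw [e]
    refine Valuation.map_add_lt _ ?_ (Valuation.map_add_lt _ hy hz)
    rw [map_mul]
    calc v.valuation F ((c : F) * (y : F) ^ 2 - 1) * v.valuation F ((d : F) * (z : F) ^ 2 - 1)
        ≤ v.valuation F ((c : F) * (y : F) ^ 2 - 1) * 1 :=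
          mul_le_mul_right (hz.le.trans h4) _
      _ < v.valuation F 4 := by rwa [mul_one]
  inv_mem' := by
    rintro c ⟨y, hy⟩
    refine ⟨y⁻¹, ?_⟩
    have h4 : v.valuation F 4 ≤ 1 := by
      have h : v.valuation F (algebraMap (𝓞 F) F 4) ≤ 1 := v.valuation_le_one 4
      rwa [map_ofNat] at h
    have h1 : v.valuation F ((c : F) * (y : F) ^ 2) = 1 := by
      have e : (c : F) * (y : F) ^ 2 = ((c : F) * (y : F) ^ 2 - 1) + 1 := by ring
      rw [e, Valuation.map_add_eq_of_lt_right _ (by rw [map_one]; exact hy.trans_le h4), map_one]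
    have e : ((c⁻¹ : Fˣ) : F) * ((y⁻¹ : Fˣ) : F) ^ 2 - 1 =
        -(((c : F) * (y : F) ^ 2 - 1) * ((c : F) * (y : F) ^ 2)⁻¹) := by
      have hc := c.ne_zero
      have hy0 := y.ne_zero
      rw [Units.val_inv_eq_inv_val, Units.val_inv_eq_inv_val]
      field_simp
      ring
    rw [e, Valuation.map_neg, map_mul, map_inv₀, h1, inv_one, mul_one]
    exact hy

/-- The elements of `Fˣ` which are squares in the completion at the archimedean place `w`. -/
def Sqi (w : InfinitePlace F) : Subgroup Fˣ where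
  carrier := {c | w.IsReal → 0 < (w.embedding (c : F)).re}
  one_mem' := fun _ => by simp
  mul_mem' := by
    intro c d hc hd hw
    have h1 := hc hw
    have h2 := hd hw
    have him : ∀ x : F, (w.embedding x).im = 0 := fun x => by
      have h3 := InfinitePlace.isReal_iff.1 hw
      have h4 := ComplexEmbedding.isReal_iff.1 h3
      have h5 := congrArg (fun φ : F →+* ℂ => φ x) h4
      exact Complex.conj_eq_iff_im.1 h5
    rw [Units.val_mul, map_mul, Complex.mul_re, him, him, mul_zero, sub_zero]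
    exact mul_pos h1 h2
  inv_mem' := by
    intro c hc hw
    have h1 := hc hw
    rw [Units.val_inv_eq_inv_val, map_inv₀, Complex.inv_re]
    refine div_pos h1 (Complex.normSq_pos.2 ?_)
    exact (map_ne_zero _).2 c.ne_zero

/-- The elements of `Fˣ` which are squares in the completion at `v`. -/
def Sq : Pl F → Subgroup Fˣ
  | Sum.inl w => Sqi w
  | Sum.inr v => Sqf v

/-! ## Norms -/

/-- The nonzero elements of the form `x² - a y²`: the norms from `F(√a)` (everything if `a` is a
square). -/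
def Nm (a : Fˣ) : Subgroup Fˣ where
  carrier := {b | ∃ x y : F, (b : F) = x ^ 2 - a * y ^ 2}
  one_mem' := ⟨1, 0, by simp⟩
  mul_mem' := by
    rintro b c ⟨x, y, h⟩ ⟨z, w, h'⟩
    refine ⟨x * z + a * y * w, x * w + y * z, ?_⟩
    rw [Units.val_mul, h, h']
    ring
  inv_mem' := by
    rintro b ⟨x, y, h⟩
    refine ⟨x * (b : F)⁻¹, y * (b : F)⁻¹, ?_⟩
    have hb := b.ne_zero
    rw [Units.val_inv_eq_inv_val]
    have e : (x * (b : F)⁻¹) ^ 2 - a * (y * (b : F)⁻¹) ^ 2 = (x ^ 2 - a * y ^ 2) * ((b : F)⁻¹) ^ 2 := by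
      ring
    rw [e, ← h]
    field_simp

/-- The local norm group at `v` of the extension `F(√a)`. -/
def LN (v : Pl F) (a : Fˣ) : Subgroup Fˣ := Sq v ⊔ Nm a

open scoped Classical in
/-- The Hilbert symbol `(a, b)_v`, written additively: `0` if `b` is a local norm from `F(√a)` at
`v`, and `1` otherwise. -/
noncomputable def hs (v : Pl F) (a b : Fˣ) : ZMod 2 := if b ∈ LN v a then 0 else 1

/-! ## `V`-units -/

/-- the `V`-units of `F` -/
def Us (V : Finset (HeightOneSpectrum (𝓞 F))) : Subgroup Fˣ where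
  carrier := {x | ∀ v : HeightOneSpectrum (𝓞 F), v ∉ V → ordv v (x : F) = 0}
  one_mem' := fun v _ => ordv_one v
  mul_mem' := fun {x y} hx hy v hv => by rw [ordv_mul, hx v hv, hy v hv, add_zero]
  inv_mem' := fun {x} hx v hv => by rw [ordv_inv, hx v hv, neg_zero]

/-- the elements which are squares at all places of `V` and at the archimedean places -/
def Sqs (V : Finset (HeightOneSpectrum (𝓞 F))) : Subgroup Fˣ := ⨅ P : PS V, Sq P.pl

/-- `V` contains the places above `2` and the `V`-class group is trivial. -/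
structure Good (V : Finset (HeightOneSpectrum (𝓞 F))) : Prop where
  /-- the places above `2` are in `V` -/
  dya : ∀ v : HeightOneSpectrum (𝓞 F), (2 : 𝓞 F) ∈ v.asIdeal → v ∈ V
  /-- the `V`-class group is trivial -/
  cls : ∀ v : HeightOneSpectrum (𝓞 F), v ∉ V → ∃ π : Fˣ, ordv v (π : F) = 1 ∧
    ∀ u : HeightOneSpectrum (𝓞 F), u ∉ V → u ≠ v → ordv u (π : F) = 0

/-- `K = F(√a)` is a quadratic extension of `F`, `α = √a`. -/
structure QE (F K : Type) [Field F] [Field K] [Algebra F K] (a : Fˣ) (α : K) : Prop where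
  /-- `[K : F] = 2` -/
  card : Nat.card (K ≃ₐ[F] K) = 2
  /-- `α ^ 2 = a` -/
  sq : α ^ 2 = algebraMap F K (a : F)
  /-- `α` is not in `F` -/
  nb : ∀ y : F, algebraMap F K y ≠ α

/-- the norms of the `V`-units of `K` -/
def NmU (K : Type) [Field K] [NumberField K] [Algebra F K]
    (V : Finset (HeightOneSpectrum (𝓞 F))) : Subgroup Fˣ where
  carrier := {x | ∃ β : Kˣ, (∀ W : HeightOneSpectrum (𝓞 K), W.under (𝓞 F) ∉ V →
    ordv W (β : K) = 0) ∧ Algebra.norm F (β : K) = (x : F)}
  one_mem' := ⟨1, fun W _ => ordv_one W, by simp⟩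
  mul_mem' := by
    rintro x y ⟨β, h1, h2⟩ ⟨γ, h3, h4⟩
    refine ⟨β * γ, fun W hW => by rw [ordv_mul, h1 W hW, h3 W hW, add_zero], ?_⟩
    rw [Units.val_mul, map_mul, h2, h4, Units.val_mul]
  inv_mem' := by
    rintro x ⟨β, h1, h2⟩
    refine ⟨β⁻¹, fun W hW => by rw [ordv_inv, h1 W hW, neg_zero], ?_⟩
    rw [Units.val_inv_eq_inv_val x, ← h2]
    refine eq_inv_of_mul_eq_one_left ?_
    rw [← map_mul, Units.inv_mul, map_one]

/-! ## The reciprocity map -/

/-- the elements with even valuation at the places outside `V` which are inert in `F(√a)` -/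
def Ev (V : Finset (HeightOneSpectrum (𝓞 F))) (a : Fˣ) : Subgroup Fˣ where
  carrier := {x | ∀ s : HeightOneSpectrum (𝓞 F), s ∉ V → a ∉ Sqf s → Even (ordv s (x : F))}
  one_mem' := fun s _ _ => by rw [Units.val_one, ordv_one]; exact Even.zero
  mul_mem' := fun {x y} hx hy s hs ha => by rw [ordv_mul]; exact (hx s hs ha).add (hy s hs ha)
  inv_mem' := fun {x} hx s hs ha => by rw [ordv_inv]; exact (hx s hs ha).neg

/-- the group `W_a` -/
def Wa (V : Finset (HeightOneSpectrum (𝓞 F))) (a : Fˣ) : Subgroup Fˣ := Sqs V ⊔ Ev V a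

/-- the elements which are squares at all places of `V` other than `P` -/
def Xv (V : Finset (HeightOneSpectrum (𝓞 F))) (P : PS V) : Subgroup Fˣ :=
  ⨅ Q : {Q : PS V // Q ≠ P}, Sq Q.1.pl

/-- A basis `a` of the `V`-units modulo squares and a dual system `t` of places outside `V`. -/
structure Dual (V : Finset (HeightOneSpectrum (𝓞 F))) {k : ℕ} (a : Fin k → Fˣ)
    (t : Fin k → HeightOneSpectrum (𝓞 F)) : Prop where
  /-- `k = #V` (with the archimedean places) -/
  card : Fintype.card (PS V) = k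
  /-- the `a i` are `V`-units -/
  mem : ∀ i, a i ∈ Us V
  /-- the `t i` are not in `V` -/
  out : ∀ i, t i ∉ V
  /-- duality -/
  dual : ∀ i j, a j ∈ Sqf (t i) ↔ j ≠ i

open scoped Classical in
/-- the set `V ∪ {t_1, …, t_k}` -/
noncomputable def ext2 (V : Finset (HeightOneSpectrum (𝓞 F))) {k : ℕ}
    (t : Fin k → HeightOneSpectrum (𝓞 F)) : Finset (HeightOneSpectrum (𝓞 F)) :=
  V ∪ Finset.univ.image t

theorem mem_ext2 {V : Finset (HeightOneSpectrum (𝓞 F))} {k : ℕ}
    {t : Fin k → HeightOneSpectrum (𝓞 F)} {v : HeightOneSpectrum (𝓞 F)} :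
    v ∈ ext2 V t ↔ v ∈ V ∨ ∃ i, t i = v := by
  classical
  simp [ext2]

open scoped Classical in
/-- the sum of the valuations (modulo 2) at the places outside `V` which are inert in `F(√a)` -/
noncomputable def rho (V : Finset (HeightOneSpectrum (𝓞 F))) (a x : Fˣ) : ZMod 2 :=
  ∑ᶠ s : HeightOneSpectrum (𝓞 F), if s ∉ V ∧ a ∉ Sqf s then (ordv s (x : F) : ZMod 2) else 0

end Pool.Agent.QR
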